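import Pool.Agent.BLP.StmtsA
import Pool.Agent.Helper62_BLP.A_ENA
import Pool.Agent.Helper52_BLP.A_PAB
import Pool.Agent.Helper77_BLP.A_BDD
import Pool.Agent.Helper24_BLP.A_ONE
import Pool.Agent.Helper50_BLP.A_EXI
import Pool.Agent.Helper82_BLP.SPK
import Pool.Agent.Helper8_BLP.A_PNT
import Pool.Agent.Helper48_BLP.A_SPL
import Pool.Agent.Helper68_BLP.SubBel
import Pool.Agent.Helper67_BLP.A_LEV
import Pool.Agent.Helper76_BLP.A_INC
import Pool.Agent.Helper72_BLP.A_MOD
import Pool.Agent.Helper72_BLP.A_CTL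
import Pool.Agent.Helper8_BLP.A_CRO
import Pool.Agent.Helper95_BLP.A_QUA
import Pool.Agent.Helper8_BLP.A_STP
import Pool.Agent.Helper6_BLP.COV
import Pool.Agent.Helper30_BLP.A_LOC
import Pool.Agent.Helper72_BLP.A_LIP
import Pool.Agent.Helper50_BLP.A_RAT

/-!
# Squad BLP, block A assembled

Closed proofs of all the statements of `Pool/Agent/BLP/StmtsA.lean`.
-/

namespace Pool.Agent.BLP.All

theorem ena_ : EnaStmt := H62.a_ena

theorem pab_ : PabStmt := H52.pab

theorem bdd_ : BddStmt := H77.a_bdd pab_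

theorem one_ : OneStmt := H24.one ena_ pab_

theorem exi_ : ExiStmt := H50.a_exi ena_ pab_ bdd_

theorem spk_ : SpkStmt := H82.spk ena_ bdd_ exi_

theorem pnt_ : PntStmt := H8.a_pnt ena_ pab_ bdd_ spk_

theorem spl_ : SplStmt := H48.a_spl ena_ pab_ bdd_ exi_

theorem sub_ : SubStmt := H68.sub_ ena_ pab_ bdd_ spl_

theorem bel_ : BelStmt := H68.bel one_ spl_

theorem lev_ : LevStmt := H67.a_lev one_ spk_

theorem inc_ : IncStmt := H76.a_inc one_ spk_ lev_

theorem mod_ : ModStmt := H72.a_mod pab_ bdd_ inc_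

theorem ctl_ : CtlStmt := H72.a_ctl one_ mod_

theorem cro_ : CroStmt := H8.a_cro

theorem qua_ : QuaStmt := H95.qua pab_ exi_ pnt_ spk_ cro_

theorem stp_ : StpStmt := H8.a_stp ena_ pab_ bel_ pnt_

theorem cov_ : CovStmt := H6.cov

theorem loc_ : LocStmt := H30.a_loc pab_

theorem lip_ : LipStmt := H72.a_lip pab_ bdd_

theorem rat_ : RatStmt := H50.a_rat ena_ pab_ one_ exi_

end Pool.Agent.BLP.All
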