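import Pool.Agent.BLP.StmtsM
import Pool.Agent.Helper22_BLP.AllA
import Pool.Agent.Helper79_BLP.M_REP
import Pool.Agent.Helper33_BLP.MEA
import Pool.Agent.Helper18_BLP.M_TRF
import Pool.Agent.Helper60_BLP.SCF
import Pool.Agent.Helper60_BLP.LEV
import Pool.Agent.Helper97_BLP.OSM
import Pool.Agent.Helper77_BLP.M_XMG
import Pool.Agent.Helper1_BLP.M_XIN
import Pool.Agent.Helper13_BLP.M_CEL
import Pool.Agent.Helper9_BLP.M_EXL
import Pool.Agent.Helper20_BLP.M_INT
import Pool.Agent.Helper52_BLP.M_EAQ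
import Pool.Agent.Helper65_BLP.M_GSA
import Pool.Agent.Helper83_BLP.M_FEK
import Pool.Agent.Helper83_BLP.M_POS
import Pool.Agent.Helper48_BLP.M_BLK
import Pool.Agent.Helper68_BLP.Low
import Pool.Agent.Helper62_BLP.M_LL1
import Pool.Agent.Helper68_BLP.Llq
import Pool.Agent.Helper47_BLP.M_OSL
import Pool.Agent.Helper65_BLP.M_LLU
import Pool.Agent.Helper47_BLP.M_FIN

/-!
# Squad BLP, block M assembled

Closed proofs of all the statements of `Pool/Agent/BLP/StmtsM.lean`; the last one is the law of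
large numbers `fcm_ : FcmStmt`, that is `Sp μ B → ∃ c, LLNc μ B c`.
-/

namespace Pool.Agent.BLP.All

theorem rep_ : RepStmt := H79.m_rep bdd_ rat_

theorem mea_ : MeaStmt := H33.mea

theorem trf_ : TrfStmt := H18.m_trf cov_

theorem scf_ : ScfStmt := H60.m_scf cov_

theorem lvy_ : LvyStmt := H60.m_lev

theorem osm_ : OsmStmt := H97.osm lvy_

theorem xmg_ : XmgStmt := H77.m_xmg osm_

theorem xin_ : XinStmt := H1.xin xmg_

theorem cel_ : CelStmt := H13.m_cel exi_

theorem exl_ : ExlStmt := H9.m_exl cel_ xin_ xmg_ mea_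

theorem int_ : IntStmt := H20.m_int spk_ one_ inc_ trf_ exl_ mea_

theorem eaq_ : EaqStmt := H52.eaq trf_ scf_ mea_

theorem gsa_ : GsaStmt := H65.m_gsa spl_ eaq_ int_ exl_

theorem fek_ : FekStmt := H83.m_fek

theorem pos_ : PosStmt := H83.m_pos one_ bel_ int_

theorem blk_ : BlkStmt := H48.m_blk rep_ trf_ int_

theorem low_ : LowStmt := H68.low one_ spl_ inc_ blk_ int_

theorem ll1_ : Ll1Stmt := H62.m_ll1 low_ int_

theorem llq_ : LlqStmt := H68.llq ll1_ scf_ mea_ int_

theorem osl_ : OslStmt := H47.m_osl lvy_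

theorem llu_ : LluStmt := H65.m_llu inc_ one_ llq_ osl_

/-- the law of large numbers for the last-passage value -/
theorem fcm_ : FcmStmt := H47.m_fin gsa_ fek_ pos_ llu_

end Pool.Agent.BLP.All
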